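import Pool.Agent.Helper56.RZ.GoalsA

/-!
# Project RZ, packet PP: persistence of a dominated pair
-/

set_option autoImplicit false

open Set Filter Topology MeasureTheory

open Pool.Agent.Helper56.RZ

namespace Pool.Agent.Helper77.RZ

section cont

variable {X : Type} [MetricSpace X] {K : ℕ}

lemma gtE_cont (H : Coc X K) (F G : X → End K) (hF : Continuous F) (hG : Continuous G) :
    Continuous (fun p : X × End K => gtE H F G p.1 p.2) := by
  have h1 : Continuous fun p : X × End K => F p.1 := hF.comp continuous_fst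
  have h2 : Continuous fun p : X × End K => H.B (H.f p.1) :=
    H.contB.comp (H.f.continuous.comp continuous_fst)
  have h3 : Continuous fun p : X × End K => G (H.f p.1) :=
    hG.comp (H.f.continuous.comp continuous_fst)
  have h4 : Continuous fun p : X × End K => H.A p.1 := H.contA.comp continuous_fst
  have h5 : Continuous fun p : X × End K => F (H.f p.1) :=
    hF.comp (H.f.continuous.comp continuous_fst)
  unfold gtE
  exact ((((h1.mul h2).mul h3).mul h4).mul h1).sub ((((h1.mul h2).mul h5).mul h4).mul continuous_snd)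

lemma inv_contAt {Y : Type} [TopologicalSpace Y] (u : Y → End K) (y : Y) (hu : ContinuousAt u y)
    (h : ‖u y‖ < 1) : ContinuousAt (fun y => Ring.inverse (1 - u y)) y := by
  have h1 : ContinuousAt Ring.inverse (1 - u y) :=
    NormedRing.inverse_continuousAt (Units.oneSub (u y) h)
  exact ContinuousAt.comp (f := fun y => 1 - u y) (g := Ring.inverse) h1 (continuousAt_const.sub hu)

lemma gt_contAt (C H : Coc X K) (F G : X → End K) (hF : Continuous F) (hG : Continuous G)
    (p : X × End K) (h : ‖gtE H F G p.1 p.2‖ < 1) :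
    ContinuousAt (fun p : X × End K => gt C H F G p.1 p.2) p := by
  have h1 : Continuous fun p : X × End K => F p.1 := hF.comp continuous_fst
  have h2 : Continuous fun p : X × End K => H.B (H.f p.1) :=
    H.contB.comp (H.f.continuous.comp continuous_fst)
  have h3 : Continuous fun p : X × End K => G (H.f p.1) :=
    hG.comp (H.f.continuous.comp continuous_fst)
  have h4 : Continuous fun p : X × End K => H.A p.1 := H.contA.comp continuous_fst
  have h5 : Continuous fun p : X × End K => F (H.f p.1) :=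
    hF.comp (H.f.continuous.comp continuous_fst)
  have h6 : Continuous fun p : X × End K => C.A (H.f p.1) :=
    C.contA.comp (H.f.continuous.comp continuous_fst)
  have h7 : Continuous fun p : X × End K => C.B (C.f (H.f p.1)) :=
    C.contB.comp (C.f.continuous.comp (H.f.continuous.comp continuous_fst))
  have h8 := inv_contAt (fun p : X × End K => gtE H F G p.1 p.2) p
    (gtE_cont H F G hF hG).continuousAt h
  unfold gt gtR
  exact ((h6.continuousAt.mul ((h3.mul h4).mul (h1.add continuous_snd)).continuousAt).mul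
    (h8.mul ((h1.mul h2).mul h5).continuousAt)).mul h7.continuousAt

end cont

section rank

variable {K : ℕ}

/-- rank of an endomorphism -/
noncomputable def rk (P : End K) : ℕ := Module.finrank ℝ (LinearMap.range (P : E K →ₗ[ℝ] E K))

lemma rk_mul_left (P Q : End K) : rk (P * Q) ≤ rk P := by
  unfold rk
  refine Submodule.finrank_mono ?_
  rintro _ ⟨v, rfl⟩
  exact ⟨Q v, rfl⟩

lemma rk_mul_right (P Q : End K) : rk (P * Q) ≤ rk Q := by
  unfold rk
  have h : LinearMap.range ((P * Q : End K) : E K →ₗ[ℝ] E K) =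
      (LinearMap.range (Q : E K →ₗ[ℝ] E K)).map (P : E K →ₗ[ℝ] E K) := by
    rw [← LinearMap.range_comp]
    rfl
  rw [h]
  exact Submodule.finrank_map_le _ _

lemma rk_close (P Q : End K) (hP : P * P = P) (h : ‖P - Q‖ < 1) : rk P ≤ rk Q := by
  unfold rk
  refine LinearMap.finrank_le_finrank_of_injective
    (f := (Q : E K →ₗ[ℝ] E K).rangeRestrict.comp (LinearMap.range (P : E K →ₗ[ℝ] E K)).subtype) ?_
  rw [← LinearMap.ker_eq_bot, LinearMap.ker_eq_bot']
  rintro ⟨_, ⟨v, rfl⟩⟩ hv
  have hv' : Q (P v) = 0 := congrArg Subtype.val hv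
  have h1 : P (P v) = P v := by
    change (P * P) v = P v
    rw [hP]
  have h2 : ‖P v‖ ≤ ‖P - Q‖ * ‖P v‖ := by
    calc ‖P v‖ = ‖(P - Q) (P v)‖ := by
          rw [sub_apply, hv', sub_zero, h1]
      _ ≤ _ := ContinuousLinearMap.le_opNorm _ _
  have h3 : ‖P v‖ = 0 := by
    by_contra hne
    have : 0 < ‖P v‖ := lt_of_le_of_ne (norm_nonneg _) (Ne.symm hne)
    nlinarith
  have h4 : P v = 0 := norm_eq_zero.mp h3
  exact Subtype.ext h4

/-- invariance under the inverse, by comparison of ranks -/
lemma inv_of_rank (A B Φ Φ' T : End K) (hBA : B * A = T) (hT : T * Φ = Φ)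
    (hΦ : Φ * Φ = Φ) (hinv : A * Φ = Φ' * (A * Φ)) (hrk : rk Φ' ≤ rk Φ) :
    B * Φ' = Φ * (B * Φ') := by
  have hle : LinearMap.range ((A * Φ : End K) : E K →ₗ[ℝ] E K) ≤
      LinearMap.range (Φ' : E K →ₗ[ℝ] E K) := by
    rintro _ ⟨v, rfl⟩
    refine ⟨(A * Φ) v, ?_⟩
    change (Φ' * (A * Φ)) v = (A * Φ) v
    rw [← hinv]
  have hrk2 : rk Φ ≤ rk (A * Φ) := by
    have : B * (A * Φ) = Φ := by rw [← mul_assoc, hBA, hT]
    calc rk Φ = rk (B * (A * Φ)) := by rw [this]
      _ ≤ _ := rk_mul_right _ _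
  have heq : LinearMap.range ((A * Φ : End K) : E K →ₗ[ℝ] E K) =
      LinearMap.range (Φ' : E K →ₗ[ℝ] E K) :=
    Submodule.eq_of_le_of_finrank_le hle (hrk.trans hrk2)
  ext1 v
  have hv : Φ' v ∈ LinearMap.range ((A * Φ : End K) : E K →ₗ[ℝ] E K) := by
    rw [heq]
    exact ⟨v, rfl⟩
  obtain ⟨w, hw⟩ := hv
  have hw' : A (Φ w) = Φ' v := hw
  have h1 : B (Φ' v) = Φ w := by
    rw [← hw']
    change (B * A * Φ) w = Φ w
    rw [hBA, hT]
  change B (Φ' v) = Φ (B (Φ' v))
  rw [h1]
  change Φ w = (Φ * Φ) w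
  rw [hΦ]

end rank

section main

variable {X : Type} [MetricSpace X] {K : ℕ}

lemma unif [CompactSpace X] (P : X → End K) (hP : Continuous P) (ε : ℝ) (hε : 0 < ε) :
    ∃ δ : ℝ, 0 < δ ∧ ∀ x y, dist x y ≤ δ → ‖P x - P y‖ < ε := by
  have h := CompactSpace.uniformContinuous_of_continuous hP
  rw [Metric.uniformContinuous_iff] at h
  obtain ⟨d, hd, h⟩ := h ε hε
  refine ⟨d / 2, by positivity, fun x y hxy => ?_⟩
  rw [← dist_eq_norm]
  exact h (by linarith)

lemma bdd [CompactSpace X] (P : X → End K) (hP : Continuous P) :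
    ∃ R : ℝ, 0 < R ∧ ∀ x, ‖P x‖ ≤ R := by
  obtain ⟨R, hR⟩ := (isCompact_univ (X := X)).exists_bound_of_continuousOn hP.continuousOn
  exact ⟨max R 1, by positivity, fun x => (hR x (mem_univ x)).trans (le_max_left _ _)⟩

lemma small [CompactSpace X] (C : Coc X K) (F G : X → End K) (hp : Pair C F G) (κ : ℝ)
    (hκ : 0 < κ) : ∃ δ : ℝ, 0 < δ ∧ ∀ H : Coc X K, H.T = C.T → Near H δ → ∀ x,
      ‖G (H.f x) * H.A x * F x‖ ≤ κ ∧ ‖F (H.f x) - F x‖ < 1 := by
  obtain ⟨R1, hR1, h1⟩ := bdd F hp.contF
  obtain ⟨R2, hR2, h2⟩ := bdd G hp.contG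
  obtain ⟨d1, hd1, h3⟩ := unif F hp.contF 1 one_pos
  obtain ⟨d2, hd2, h4⟩ := unif G hp.contG (κ / (2 * R1)) (by positivity)
  refine ⟨min (min d1 d2) (κ / (2 * (R2 * R1))), by positivity, fun H e hN x => ?_⟩
  obtain ⟨n1, n2, -⟩ := hN x
  have n3 : dist (H.f x) x ≤ d1 := n1.trans ((min_le_left _ _).trans (min_le_left _ _))
  have n4 : dist (H.f x) x ≤ d2 := n1.trans ((min_le_left _ _).trans (min_le_right _ _))
  have n5 : ‖H.A x - H.T x‖ ≤ κ / (2 * (R2 * R1)) := n2.trans (min_le_right _ _)
  refine ⟨?_, h3 _ _ n3⟩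
  have hTF : H.T x * F x = F x := by
    rw [e, ← hp.sum, add_mul, hp.FF, hp.GF, add_zero]
  have h5 : G (H.f x) * H.A x * F x =
      G (H.f x) * (H.A x - H.T x) * F x + (G (H.f x) - G x) * F x := by
    have : G (H.f x) * (H.A x - H.T x) * F x + (G (H.f x) - G x) * F x =
        G (H.f x) * H.A x * F x - G (H.f x) * (H.T x * F x) + G (H.f x) * F x - G x * F x := by
      simp only [mul_sub, sub_mul, mul_assoc]
      abel
    rw [this, hTF, hp.GF]
    abel
  rw [h5]
  have h6 : ‖G (H.f x) * (H.A x - H.T x) * F x‖ ≤ R2 * (κ / (2 * (R2 * R1))) * R1 := by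
    refine (norm_mul_le _ _).trans ?_
    refine mul_le_mul ((norm_mul_le _ _).trans ?_) (h1 x) (norm_nonneg _) (by positivity)
    exact mul_le_mul (h2 _) n5 (norm_nonneg _) hR2.le
  have h7 : ‖(G (H.f x) - G x) * F x‖ ≤ κ / (2 * R1) * R1 := by
    refine (norm_mul_le _ _).trans ?_
    exact mul_le_mul (h4 _ _ n4).le (h1 x) (norm_nonneg _) (by positivity)
  have h8 : R2 * (κ / (2 * (R2 * R1))) * R1 = κ / 2 := by field_simp
  have h9 : κ / (2 * R1) * R1 = κ / 2 := by field_simp
  calc _ ≤ _ := norm_add_le _ _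
    _ ≤ κ / 2 + κ / 2 := add_le_add (h8 ▸ h6) (h9 ▸ h7)
    _ = κ := by ring

/-- the iterates of the graph transform -/
noncomputable def it (C H : Coc X K) (F G : X → End K) : ℕ → X → End K
  | 0, _ => 0
  | n + 1, z => gt C H F G ((H.f.trans C.f).symm z) (it C H F G n ((H.f.trans C.f).symm z))

lemma core (hA : StmtGTA) [CompactSpace X] (C H : Coc X K) (e : H.T = C.T) (F G : X → End K)
    (hp : Pair C F G) (nu : X → End K → ℝ) (c l : ℝ) (had : Adapt C F G nu c l)
    (c' l' κ : ℝ) (hl0 : 0 < l') (hl1 : l' < 1)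
    (hB : ∀ (x : X) (s s' : End K), G x * s * F x = s → G x * s' * F x = s' → ‖s‖ ≤ 1 →
      ‖s'‖ ≤ 1 → ‖gtE H F G x s‖ ≤ 1 / 2 ∧
      nu (C.f (H.f x)) (gt C H F G x s - gt C H F G x s') ≤ l' * nu x (s - s') ∧
      nu (C.f (H.f x)) (gt C H F G x 0) ≤ c' * ‖G (H.f x) * H.A x * F x‖)
    (hc' : 1 ≤ c') (hκ : ∀ x, ‖G (H.f x) * H.A x * F x‖ ≤ κ) (hκ1 : c' * κ ≤ 1 - l') :
    ∃ S : X → End K, Continuous S ∧ (∀ x, G x * S x * F x = S x) ∧
      (∀ x, nu x (S x) ≤ c' / (1 - l') * κ) ∧ (∀ x, ‖S x‖ ≤ 1) ∧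
      (∀ x, S (C.f (H.f x)) = gt C H F G x (S x)) := by
  set M : ℝ := c' / (1 - l') * κ with hM
  have hpos : 0 < 1 - l' := by linarith
  have hM1 : M ≤ 1 := by
    rw [hM, div_mul_eq_mul_div, div_le_one hpos]
    exact hκ1
  have hM0 : X → 0 ≤ M := fun x => by
    have : 0 ≤ κ := (norm_nonneg _).trans (hκ x)
    rw [hM]
    positivity
  have hMl : l' * M + c' * κ = M := by
    rw [hM]
    field_simp
    ring
  have hnu0 : ∀ z, nu z 0 = 0 := fun z => by
    have := had.smul z 0 0
    rw [abs_zero, zero_mul] at this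
    rwa [show ((0 : ℝ) • (0 : End K)) = 0 from zero_smul ℝ (0 : End K)] at this
  set g : X ≃ₜ X := H.f.trans C.f with hg
  have hgz : ∀ z, C.f (H.f (g.symm z)) = z := fun z => g.apply_symm_apply z
  have hit : ∀ n z, it C H F G (n + 1) z = gt C H F G (g.symm z) (it C H F G n (g.symm z)) :=
    fun n z => rfl
  have h0G : ∀ x, G x * (0 : End K) * F x = 0 := fun x => by simp
  -- basic induction
  have hI : ∀ n, (∀ z, G z * it C H F G n z * F z = it C H F G n z) ∧
      (∀ z, nu z (it C H F G n z) ≤ M) ∧ Continuous (it C H F G n) := by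
    intro n
    induction n with
    | zero =>
      refine ⟨fun z => h0G z, fun z => ?_, ?_⟩
      · change nu z 0 ≤ M
        rw [hnu0]
        exact hM0 z
      · change Continuous fun _ => (0 : End K)
        exact continuous_const
    | succ n ih =>
      obtain ⟨i1, i2, i3⟩ := ih
      have i4 : ∀ z, ‖it C H F G n z‖ ≤ 1 := fun z =>
        (had.lower z _ (i1 z)).trans ((i2 z).trans hM1)
      have i5 : ∀ z, ‖gtE H F G z (it C H F G n z)‖ < 1 := fun z =>
        lt_of_le_of_lt (hB z _ 0 (i1 z) (h0G z) (i4 z) (by simp)).1 (by norm_num)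
      refine ⟨fun z => ?_, fun z => ?_, ?_⟩
      · have := (hA X K C H F G hp e (g.symm z) _ (i1 _) (i5 _)).1
        rw [hgz] at this
        rw [hit]
        exact this
      · obtain ⟨-, j1, j2⟩ := hB (g.symm z) _ 0 (i1 _) (h0G _) (i4 _) (by simp)
        rw [hgz, sub_zero] at j1
        rw [hgz] at j2
        rw [hit]
        calc nu z (gt C H F G (g.symm z) (it C H F G n (g.symm z)))
            = nu z ((gt C H F G (g.symm z) (it C H F G n (g.symm z)) -
                gt C H F G (g.symm z) 0) + gt C H F G (g.symm z) 0) := by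
              rw [sub_add_cancel]
          _ ≤ _ := had.add _ _ _
          _ ≤ l' * M + c' * κ := by
              refine add_le_add (j1.trans ?_) (j2.trans ?_)
              · exact mul_le_mul_of_nonneg_left (i2 _) hl0.le
              · exact mul_le_mul_of_nonneg_left (hκ _) (by linarith)
          _ = M := hMl
      · have : Continuous fun x => gt C H F G x (it C H F G n x) := by
          rw [continuous_iff_continuousAt]
          intro x
          exact ContinuousAt.comp (f := fun x => (x, it C H F G n x))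
            (g := fun p : X × End K => gt C H F G p.1 p.2)
            (gt_contAt C H F G hp.contF hp.contG (x, it C H F G n x) (i5 x))
            (continuous_id.prodMk i3).continuousAt
        exact this.comp g.symm.continuous
  have hn1 : ∀ n z, ‖it C H F G n z‖ ≤ M := fun n z =>
    (had.lower z _ ((hI n).1 z)).trans ((hI n).2.1 z)
  -- differences
  have hD : ∀ n z, nu z (it C H F G (n + 1) z - it C H F G n z) ≤ M * l' ^ n := by
    intro n
    induction n with
    | zero =>
      intro z
      change nu z (it C H F G 1 z - 0) ≤ _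
      rw [sub_zero, pow_zero, mul_one]
      exact (hI 1).2.1 z
    | succ n ih =>
      intro z
      have j1 := (hB (g.symm z) (it C H F G (n + 1) (g.symm z)) (it C H F G n (g.symm z))
        ((hI _).1 _) ((hI _).1 _) ((hn1 _ _).trans hM1) ((hn1 _ _).trans hM1)).2.1
      rw [hgz] at j1
      rw [hit, hit]
      calc _ ≤ _ := j1
        _ ≤ l' * (M * l' ^ n) := mul_le_mul_of_nonneg_left (ih _) hl0.le
        _ = M * l' ^ (n + 1) := by ring
  have hD2 : ∀ n z, dist (it C H F G n z) (it C H F G (n + 1) z) ≤ M * l' ^ n := by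
    intro n z
    rw [dist_comm, dist_eq_norm]
    refine (had.lower z _ ?_).trans (hD n z)
    rw [mul_sub, sub_mul, (hI _).1, (hI _).1]
  -- the limit
  have hex : ∀ z, ∃ a, Tendsto (fun n => it C H F G n z) atTop (𝓝 a) := fun z =>
    cauchySeq_tendsto_of_complete (cauchySeq_of_le_geometric l' M hl1 (fun n => hD2 n z))
  choose S hS using hex
  have hS2 : ∀ n z, dist (it C H F G n z) (S z) ≤ M * l' ^ n / (1 - l') := fun n z =>
    dist_le_of_le_geometric_of_tendsto l' M hl1 (fun n => hD2 n z) (hS z) n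
  have hSc : Continuous S := by
    have hu : TendstoUniformly (fun n => it C H F G n) S atTop := by
      rw [Metric.tendstoUniformly_iff]
      intro ε hε
      have ht : Tendsto (fun n : ℕ => M * l' ^ n / (1 - l')) atTop (𝓝 0) := by
        have := ((tendsto_pow_atTop_nhds_zero_of_lt_one hl0.le hl1).const_mul M).div_const (1 - l')
        simpa using this
      filter_upwards [ht.eventually (gt_mem_nhds hε)] with n hn z
      rw [dist_comm]
      exact (hS2 n z).trans_lt hn
    exact hu.continuous (Frequently.of_forall fun n => (hI n).2.2)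
  have hSG : ∀ x, G x * S x * F x = S x := fun x => by
    have h1 : Tendsto (fun n => G x * it C H F G n x * F x) atTop (𝓝 (G x * S x * F x)) :=
      ((hS x).const_mul (G x)).mul_const (F x)
    have h2 : Tendsto (fun n => G x * it C H F G n x * F x) atTop (𝓝 (S x)) := by
      refine (hS x).congr fun n => ?_
      exact ((hI n).1 x).symm
    exact tendsto_nhds_unique h1 h2
  have hSn : ∀ x, nu x (S x) ≤ M := fun x => by
    have h1 : Tendsto (fun n => nu x (it C H F G n x)) atTop (𝓝 (nu x (S x))) := by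
      have := (had.cont.comp (continuous_const.prodMk continuous_id) :
        Continuous fun s : End K => nu x s)
      exact (this.tendsto (S x)).comp (hS x)
    exact le_of_tendsto' h1 fun n => (hI n).2.1 x
  have hS1 : ∀ x, ‖S x‖ ≤ 1 := fun x => (had.lower x _ (hSG x)).trans ((hSn x).trans hM1)
  refine ⟨S, hSc, hSG, hSn, hS1, fun x => ?_⟩
  have hE : ‖gtE H F G x (S x)‖ < 1 :=
    lt_of_le_of_lt (hB x _ 0 (hSG x) (h0G x) (hS1 x) (by simp)).1 (by norm_num)
  have h1 : Tendsto (fun n => it C H F G (n + 1) (C.f (H.f x))) atTop (𝓝 (S (C.f (H.f x)))) :=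
    (hS _).comp (tendsto_add_atTop_nat 1)
  have h2 : Tendsto (fun n => gt C H F G x (it C H F G n x)) atTop (𝓝 (gt C H F G x (S x))) := by
    have h3 : ContinuousAt (fun s : End K => gt C H F G x s) (S x) :=
      ContinuousAt.comp (f := fun s : End K => (x, s))
            (g := fun p : X × End K => gt C H F G p.1 p.2)
            (gt_contAt C H F G hp.contF hp.contG (x, S x) hE)
            (continuous_const.prodMk continuous_id).continuousAt
    exact h3.tendsto.comp (hS x)
  refine tendsto_nhds_unique h1 (h2.congr fun n => ?_)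
  rw [hit]
  have : g.symm (C.f (H.f x)) = x := g.symm_apply_apply x
  rw [this]

lemma rk_step (C : Coc X K) (F G : X → End K) (hp : Pair C F G) (y : X) :
    rk (F (C.f y)) ≤ rk (F y) := by
  have hTF : C.T (C.f y) * F (C.f y) = F (C.f y) := by
    rw [← hp.sum, add_mul, hp.FF, hp.GF, add_zero]
  have hFT : F (C.f y) * C.T (C.f y) = F (C.f y) := by
    rw [← hp.sum, mul_add, hp.FF, hp.FG, add_zero]
  have h : F (C.f y) = C.A y * (F y * C.B (C.f y)) := by
    calc F (C.f y) = F (C.f y) * (C.A y * C.B (C.f y)) := by rw [C.AB, hFT]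
      _ = (F (C.f y) * C.A y) * C.B (C.f y) := by rw [mul_assoc]
      _ = C.A y * (F y * C.B (C.f y)) := by rw [← hp.AF, mul_assoc]
  rw [h]
  exact (rk_mul_right _ _).trans (rk_mul_left _ _)

/-- persistence of a dominated pair -/
theorem pp (hAN : StmtAN) (hA : StmtGTA) (hBB : StmtGTB) : StmtPP := by
  intro X _ _ K C F G hp hc
  obtain ⟨nu, c, l, -, had⟩ := hAN X K C F G hp hc
  obtain ⟨δ1, c', l', hδ1, hc', hl0, -, hl1, hB⟩ := hBB X K C F G nu c l hp had
  have hpos : 0 < 1 - l' := by linarith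
  have hc0 : 0 < c' := by linarith
  obtain ⟨δ2, hδ2, hsm⟩ := small C F G hp ((1 - l') / c') (by positivity)
  refine ⟨min δ1 δ2, c' / (1 - l'), l, lt_min hδ1 hδ2, ?_, had.lpos, had.l1, ?_⟩
  · rw [le_div_iff₀ hpos]
    linarith
  intro H e hN κ hκ
  have hN1 : Near H δ1 := fun x => ⟨(hN x).1.trans (min_le_left _ _),
    (hN x).2.1.trans (min_le_left _ _), (hN x).2.2.trans (min_le_left _ _)⟩
  have hN2 : Near H δ2 := fun x => ⟨(hN x).1.trans (min_le_right _ _),
    (hN x).2.1.trans (min_le_right _ _), (hN x).2.2.trans (min_le_right _ _)⟩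
  have hsm' := hsm H e hN2
  obtain ⟨-, hB'⟩ := hB H e hN1
  have hκ' : ∀ x, ‖G (H.f x) * H.A x * F x‖ ≤ min κ ((1 - l') / c') :=
    fun x => le_min (hκ x) (hsm' x).1
  obtain ⟨S, hSc, hSG, hSn, hS1, hSg⟩ := core hA C H e F G hp nu c l had c' l'
    (min κ ((1 - l') / c')) hl0 hl1 hB' hc' hκ' (by
      calc c' * min κ ((1 - l') / c') ≤ c' * ((1 - l') / c') :=
            mul_le_mul_of_nonneg_left (min_le_right _ _) hc0.le
        _ = 1 - l' := by field_simp)
  have hSn' : ∀ x, nu x (S x) ≤ c' / (1 - l') * κ := fun x =>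
    (hSn x).trans (mul_le_mul_of_nonneg_left (min_le_left _ _) (by positivity))
  have hE : ∀ x, ‖gtE H F G x (S x)‖ < 1 := fun x =>
    lt_of_le_of_lt (hB' x _ 0 (hSG x) (by simp) (hS1 x) (by simp)).1 (by norm_num)
  have hgta := fun x => hA X K C H F G hp e x (S x) (hSG x) (hE x)
  have hinv : ∀ x, (C.comp H e).A x * (F x + S x) =
      (F ((C.comp H e).f x) + S ((C.comp H e).f x)) * ((C.comp H e).A x * (F x + S x)) := by
    intro x
    have := (hgta x).2.1
    rw [← hSg x] at this
    exact this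
  have hFS : ∀ x, F x * S x = 0 := fun x => by
    rw [← hSG x, ← mul_assoc, ← mul_assoc, hp.FG, zero_mul, zero_mul]
  have hSF : ∀ x, S x * F x = S x := fun x => by
    rw [← hSG x, mul_assoc, hp.FF]
  have hSS : ∀ x, S x * S x = 0 := fun x => by
    calc S x * S x = S x * F x * S x := by rw [hSF]
      _ = 0 := by rw [mul_assoc, hFS, mul_zero]
  have hTS : ∀ x, C.T x * S x = S x := fun x => by
    have hGS : G x * S x = S x := by
      calc G x * S x = G x * (G x * S x * F x) := by rw [hSG]
        _ = G x * G x * S x * F x := by rw [← mul_assoc, ← mul_assoc]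
        _ = S x := by rw [hp.GG, hSG]
    rw [← hp.sum, add_mul, hFS, zero_add, hGS]
  have hΦΦ : ∀ x, (F x + S x) * (F x + S x) = F x + S x := fun x => by
    rw [mul_add, add_mul, add_mul, hp.FF, hSF, hFS, hSS, add_zero, add_zero]
  have hTΦ : ∀ x, C.T x * (F x + S x) = F x + S x := fun x => by
    rw [mul_add, hTS, ← hp.sum, add_mul, hp.FF, hp.GF, add_zero]
  have hrk1 : ∀ x, rk (F x + S x) ≤ rk (F x) := fun x => by
    have : F x + S x = (F x + S x) * F x := by rw [add_mul, hp.FF, hSF]
    rw [this]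
    exact rk_mul_right _ _
  have hrk2 : ∀ x, rk (F x) ≤ rk (F x + S x) := fun x => by
    have : F x = F x * (F x + S x) := by rw [mul_add, hp.FF, hFS, add_zero]
    conv_lhs => rw [this]
    exact rk_mul_right _ _
  refine ⟨S, hSc, hSG, fun x => (had.lower x _ (hSG x)).trans (hSn' x), hinv, ?_, ?_⟩
  · intro x
    set z := (C.comp H e).f.symm x with hz
    have hx : (C.comp H e).f z = x := (C.comp H e).f.apply_symm_apply x
    have hx' : C.f (H.f z) = x := hx
    refine inv_of_rank ((C.comp H e).A z) ((C.comp H e).B x) (F z + S z) (F x + S x) (C.T z)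
      ?_ (hTΦ z) (hΦΦ z) ?_ ?_
    · have := (C.comp H e).BA z
      rw [hx] at this
      exact this
    · have := hinv z
      rw [hx] at this
      exact this
    · refine (hrk1 x).trans (le_trans ?_ (hrk2 z))
      rw [← hx']
      exact (rk_step C F G hp _).trans (rk_close _ _ (hp.FF _) (hsm' z).2)
  · have hJ : ∀ (J : ℕ) (x : X), (∀ j, 1 ≤ j → j ≤ J → H.Off ((C.comp H e).f.symm^[j] x)) →
        nu x (S x) ≤ l ^ J * (c' / (1 - l') * κ) := by
      intro J
      induction J with
      | zero =>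
        intro x _
        rw [pow_zero, one_mul]
        exact hSn' x
      | succ J ih =>
        intro x hx
        set z := (C.comp H e).f.symm x with hz
        have hgz : C.f (H.f z) = x := (C.comp H e).f.apply_symm_apply x
        have hoff : H.Off z := hx 1 le_rfl (by omega)
        have h1 : nu z (S z) ≤ l ^ J * (c' / (1 - l') * κ) := by
          refine ih z fun j hj1 hj2 => ?_
          have := hx (j + 1) (by omega) (by omega)
          rwa [Function.iterate_succ_apply] at this
        have hz2 : C.f z = x := by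
          rw [hoff.1] at hgz
          exact hgz
        have h2 : S x = C.A z * S z * C.B (C.f z) := by
          rw [← (hgta z).2.2 hoff, ← hSg z, hgz]
        have h3 := had.step z (S z) (hSG z)
        rw [← h2, hz2] at h3
        calc nu x (S x) ≤ l * nu z (S z) := h3
          _ ≤ l * (l ^ J * (c' / (1 - l') * κ)) := mul_le_mul_of_nonneg_left h1 had.lpos.le
          _ = _ := by ring
    intro J x hx
    calc ‖S x‖ ≤ nu x (S x) := had.lower x _ (hSG x)
      _ ≤ _ := hJ J x hx
      _ = _ := by ring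

end main

end Pool.Agent.Helper77.RZ
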