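import Pool.Agent.Helper56.RZ.GoalsD
import Pool.Agent.Helper50.RZ.E1
import Pool.Agent.Helper39.RZ.CS

/-!
# Project RZ (MP_f32c9c_an), packet DI: derivatives along a disc
-/

set_option autoImplicit false

open Set Filter Topology MeasureTheory

namespace Pool.Agent.Helper77.RZ

open Pool.Agent.Helper56.RZ

variable {K u : ℕ} {M : Set (E K)}

theorem subU {D : Coc M K} {S U : M → End K} (h : Pair D S U) : Sub D U where
  cont := h.contG
  PP := h.GG
  PT := by
    intro x
    rw [← h.sum, mul_add, h.GF, h.GG, zero_add]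
  TP := by
    intro x
    rw [← h.sum, add_mul, h.FG, h.GG, zero_add]
  inv := h.AG

/-- chain rule -/
theorem chain {D : Coc M K} (hL : Lin D) (G : E u → M) (L : E u →L[ℝ] E K) (a : E u)
    (hG : HasFDerivAt (fun b => (G b : E K)) L a) :
    HasFDerivAt (fun b => (D.f (G b) : E K)) (D.A (G a) ∘L L) a := by
  have hcont : ContinuousAt (fun b => (G b : E K)) a := hG.continuousAt
  rw [hasFDerivAt_iff_isLittleO]
  have hO : (fun b => (G b : E K) - G a) =O[𝓝 a] fun b => b - a := hG.isBigO_sub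
  have h1 : (fun b => (D.f (G b) : E K) - D.f (G a) - D.A (G a) ((G b : E K) - G a))
      =o[𝓝 a] fun b => (G b : E K) - G a := by
    rw [Asymptotics.isLittleO_iff]
    intro ε hε
    obtain ⟨δ, hδ, h⟩ := hL.lin ε hε
    have h2 : ∀ᶠ b in 𝓝 a, dist (G b : E K) (G a : E K) < δ :=
      (Metric.tendsto_nhds.1 hcont) δ hδ
    filter_upwards [h2] with b hb
    rw [dist_eq_norm] at hb
    exact h (G a) (G b) hb.le
  have h2 := h1.trans_isBigO hO
  have h3 : (fun b => D.A (G a) ((G b : E K) - G a - L (b - a))) =o[𝓝 a] fun b => b - a :=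
    ((D.A (G a)).isBigO_comp _ _).trans_isLittleO (hasFDerivAt_iff_isLittleO.1 hG)
  refine (h2.add h3).congr_left ?_
  intro b
  rw [ContinuousLinearMap.comp_apply, map_sub (D.A (G a)) ((G b : E K) - G a)]
  abel

/-- one step of the linear cone -/
theorem cone_step {D : Coc M K} {S U : M → End K} (h : Hyp8 D S U) (x : M) (w : E K)
    (hw : ‖S x w‖ ≤ ‖U x w‖) :
    ‖S (D.f x) (D.A x w)‖ ≤ ‖U (D.f x) (D.A x w)‖ ∧ ‖U x w‖ ≤ ‖U (D.f x) (D.A x w)‖ := by
  have hp := h.pair
  have e1 := h.e1 x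
  have e2 := h.e2 x
  have a1 : S (D.f x) (D.A x w) = (D.A x * S x) (S x w) := by
    have h1 : D.A x * S x = S (D.f x) * D.A x := hp.AF x
    have h2 : (D.A x * S x) * S x = S (D.f x) * D.A x := by rw [mul_assoc, hp.FF, h1]
    exact (congrArg (fun L : End K => L w) h2).symm
  have a2 : U x w = (D.B (D.f x) * U (D.f x)) (U (D.f x) (D.A x w)) := by
    have h1 : D.A x * U x = U (D.f x) * D.A x := hp.AG x
    have h2 : (D.B (D.f x) * U (D.f x)) * (U (D.f x) * D.A x) = U x := by
      calc (D.B (D.f x) * U (D.f x)) * (U (D.f x) * D.A x)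
          = D.B (D.f x) * ((U (D.f x) * U (D.f x)) * D.A x) := by simp only [mul_assoc]
        _ = D.B (D.f x) * (D.A x * U x) := by rw [hp.GG, h1]
        _ = (D.B (D.f x) * D.A x) * U x := by rw [mul_assoc]
        _ = U x := by rw [D.BA, (subU hp).TP]
    exact (congrArg (fun L : End K => L w) h2).symm
  set y := ‖U (D.f x) (D.A x w)‖ with hy
  have hy0 : 0 ≤ y := norm_nonneg _
  have b1 : ‖S (D.f x) (D.A x w)‖ ≤ ‖D.A x * S x‖ * ‖S x w‖ := by
    rw [a1]
    exact (D.A x * S x).le_opNorm _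
  have b2 : ‖U x w‖ ≤ ‖D.B (D.f x) * U (D.f x)‖ * y := by
    rw [a2]
    exact (D.B (D.f x) * U (D.f x)).le_opNorm _
  have n1 : 0 ≤ ‖D.A x * S x‖ := norm_nonneg _
  have n2 : 0 ≤ ‖D.B (D.f x) * U (D.f x)‖ := norm_nonneg _
  refine ⟨?_, ?_⟩
  · calc ‖S (D.f x) (D.A x w)‖ ≤ ‖D.A x * S x‖ * ‖S x w‖ := b1
      _ ≤ ‖D.A x * S x‖ * (‖D.B (D.f x) * U (D.f x)‖ * y) :=
        mul_le_mul_of_nonneg_left (hw.trans b2) n1
      _ = (‖D.B (D.f x) * U (D.f x)‖ * ‖D.A x * S x‖) * y := by ring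
      _ ≤ 1 / 8 * y := mul_le_mul_of_nonneg_right e2 hy0
      _ ≤ y := by linarith
  · calc ‖U x w‖ ≤ ‖D.B (D.f x) * U (D.f x)‖ * y := b2
      _ ≤ 1 / 8 * y := mul_le_mul_of_nonneg_right e1 hy0
      _ ≤ y := by linarith

theorem cone_iter {D : Coc M K} {S U : M → End K} (h : Hyp8 D S U) (x : M) (w : E K)
    (hT : D.T x w = w) (hw : ‖S x w‖ ≤ ‖U x w‖) (q : ℕ) :
    ‖S (D.f^[q] x) (D.An q x w)‖ ≤ ‖U (D.f^[q] x) (D.An q x w)‖ ∧
      ‖U x w‖ ≤ ‖U (D.f^[q] x) (D.An q x w)‖ := by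
  induction q with
  | zero =>
    have h0 : D.An 0 x w = w := hT
    rw [h0, Function.iterate_zero_apply]
    exact ⟨hw, le_refl _⟩
  | succ q ih =>
    have h1 := cone_step h (D.f^[q] x) (D.An q x w) ih.1
    have h2 : D.An (q + 1) x w = D.A (D.f^[q] x) (D.An q x w) := rfl
    rw [h2, Function.iterate_succ_apply']
    exact ⟨h1.1, ih.2.trans h1.2⟩

/-- DI -/
theorem di : StmtDI := by
  intro K u M _ D S U hH r lam g g' hlam hd q
  have hder : ∀ (q : ℕ) (a : E u), ‖a‖ < r →
      HasFDerivAt (fun a => (D.f^[q] (g a) : E K)) (D.An q (g a) ∘L g' a) a := by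
    intro q
    induction q with
    | zero =>
      intro a ha
      have h1 : D.An 0 (g a) ∘L g' a = g' a := hd.tan a ha
      rw [h1]
      exact hd.der a ha
    | succ q ih =>
      intro a ha
      have h1 := chain hH.lin (fun a => D.f^[q] (g a)) _ a (ih a ha)
      have h2 : (fun a => (D.f^[q + 1] (g a) : E K)) = fun a => (D.f (D.f^[q] (g a)) : E K) := by
        funext b
        rw [Function.iterate_succ_apply']
      rw [h2]
      exact h1
  refine ⟨hder q, ?_, ?_, ?_⟩
  · have hg : ContinuousOn g (Metric.ball 0 r) := by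
      intro a ha
      have ha' : ‖a‖ < r := by simpa using ha
      have h1 : ContinuousAt (fun a => (g a : E K)) a := (hd.der a ha').continuousAt
      have h2 : ContinuousAt g a := Topology.IsInducing.subtypeVal.continuousAt_iff.2 h1
      exact h2.continuousWithinAt
    have h1 : ContinuousOn (fun a => D.An q (g a)) (Metric.ball 0 r) :=
      (Pool.Agent.Helper39.RZ.cont_An D q).comp_continuousOn hg
    exact h1.clm_comp hd.cont
  · intro a ha v
    have hlim : Tendsto (fun t : ℝ => t⁻¹ • ((g (a + t • v) : E K) - g a)) (𝓝[≠] 0)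
        (𝓝 (g' a v)) := ((hd.der a ha).hasLineDerivAt v).tendsto_slope_zero
    have hev : ∀ᶠ t : ℝ in 𝓝[≠] 0, t ≠ 0 ∧ ‖a + t • v‖ < r := by
      have h1 : ∀ᶠ t : ℝ in 𝓝 0, ‖a + t • v‖ < r := by
        have h2 : ContinuousAt (fun t : ℝ => ‖a + t • v‖) 0 := by fun_prop
        have h3 : ‖a + (0 : ℝ) • v‖ < r := by rw [zero_smul, add_zero]; exact ha
        exact h2.eventually_lt_const h3
      have h4 : ∀ᶠ t : ℝ in 𝓝[≠] 0, t ≠ 0 := eventually_mem_nhdsWithin
      exact h4.and (h1.filter_mono nhdsWithin_le_nhds)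
    have hT : D.T (g a) (g' a v) = g' a v :=
      congrArg (fun L : E u →L[ℝ] E K => L v) (hd.tan a ha)
    have hcone : ‖S (g a) (g' a v)‖ ≤ ‖U (g a) (g' a v)‖ := by
      have l1 := ((S (g a)).continuous.tendsto _).comp hlim
      have l2 := ((U (g a)).continuous.tendsto _).comp hlim
      refine le_of_tendsto_of_tendsto l1.norm l2.norm ?_
      filter_upwards [hev] with t ht
      simp only [Function.comp_apply]
      rw [map_smul, map_smul, norm_smul, norm_smul]
      exact mul_le_mul_of_nonneg_left (hd.cone a (a + t • v) ha ht.2) (norm_nonneg _)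
    have hlow : lam * ‖v‖ ≤ ‖g' a v‖ := by
      refine ge_of_tendsto hlim.norm ?_
      filter_upwards [hev] with t ht
      have h1 := hd.low (a + t • v) a ht.2 ha
      rw [add_sub_cancel_left, norm_smul] at h1
      rw [norm_smul, norm_inv]
      have h2 : 0 < ‖t‖ := norm_pos_iff.2 ht.1
      rw [le_inv_mul_iff₀ h2]
      linarith
    have hup : ‖g' a v‖ ≤ lam⁻¹ * ‖v‖ := by
      refine le_of_tendsto hlim.norm ?_
      filter_upwards [hev] with t ht
      have h1 := hd.up (a + t • v) a ht.2 ha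
      rw [add_sub_cancel_left, norm_smul] at h1
      rw [norm_smul, norm_inv]
      have h2 : 0 < ‖t‖ := norm_pos_iff.2 ht.1
      rw [inv_mul_le_iff₀ h2]
      linarith
    have hc := cone_iter hH (g a) (g' a v) hT hcone q
    exact ⟨hlow, hup, hc.1, hc.2⟩
  · intro a ha
    rw [← Pool.Agent.Helper50.RZ.rank_An D U (subU hH.pair) q (g a)]
    exact hd.rank a ha

end Pool.Agent.Helper77.RZ
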