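import Pool.Agent.Helper56.RZ.GoalsE
import Pool.Agent.Helper62.RZ.RET

/-!
# Project RZ4 (MP_f32c9c_an): packet PR (four points)
-/

set_option autoImplicit false

open Set Filter Topology MeasureTheory

open scoped ContDiff

namespace Pool.Agent.Helper77.RZ

open Pool.Agent.Helper56.RZ

/-- iterates of the inverse cocycle along an orbit -/
theorem inv_iter {K : ℕ} {M : Set (E K)} (D : Coc M K) (q : ℕ) (y : M) :
    ∀ i ≤ q, D.inv.f^[i] (D.f^[q] y) = D.f^[q - i] y := by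
  intro i
  induction i with
  | zero => intro _; rfl
  | succ i ih =>
    intro hi
    rw [Function.iterate_succ_apply', ih (by omega)]
    obtain ⟨k, hk⟩ : ∃ k, q - i = k + 1 := ⟨q - i - 1, by omega⟩
    have hk' : q - (i + 1) = k := by omega
    rw [hk, hk', Function.iterate_succ_apply']
    exact D.f.symm_apply_apply _

/-- a bound for the projections -/
theorem bddP {K : ℕ} {M : Set (E K)} (hM : IsCompact M) (P : Fin 3 → E K → End K)
    (hP : ∀ i, ContinuousOn (P i) M) : ∃ R : ℝ, 1 ≤ R ∧ ∀ i, ∀ x ∈ M, ‖P i x‖ ≤ R := by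
  have h : ∀ i, ∃ R : ℝ, ∀ x ∈ M, ‖P i x‖ ≤ R := fun i => by
    obtain ⟨R, hR⟩ := (hM.image_of_continuousOn (hP i)).isBounded.exists_norm_le
    exact ⟨R, fun x hx => hR _ (mem_image_of_mem _ hx)⟩
  choose R hR using h
  have h0 := abs_nonneg (R 0)
  have h1 := abs_nonneg (R 1)
  have h2 := abs_nonneg (R 2)
  refine ⟨1 + (|R 0| + |R 1| + |R 2|), by linarith, ?_⟩
  have k0 := le_abs_self (R 0)
  have k1 := le_abs_self (R 1)
  have k2 := le_abs_self (R 2)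
  intro i x hx
  fin_cases i
  · have := hR 0 x hx
    show ‖P 0 x‖ ≤ _
    linarith
  · have := hR 1 x hx
    show ‖P 1 x‖ ≤ _
    linarith
  · have := hR 2 x hx
    show ‖P 2 x‖ ≤ _
    linarith

/-- the Lipschitz constant of boundedly many iterates, in both directions -/
theorem lipC {K : ℕ} {M : Set (E K)} (hM : IsCompact M) {C : Coc M K} (hL : Lin C) (k0 : ℕ) :
    ∃ L : ℝ, 1 ≤ L ∧ (∀ j < k0, ∀ x y : M,
      ‖(x : E K) - y‖ ≤ L * ‖(C.f^[j] x : E K) - C.f^[j] y‖) ∧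
      ∀ j < k0, ∀ x y : M, ‖(C.f^[j] x : E K) - C.f^[j] y‖ ≤ L * ‖(x : E K) - y‖ := by
  obtain ⟨L1, h1, h1'⟩ := Pool.Agent.Helper62.RZ.inv_lip hM hL k0
  obtain ⟨L2, h2, h2'⟩ := Pool.Agent.Helper62.RZ.inv_lip hM
    (Pool.Agent.Helper16.RZ.lin_inv C hL) k0
  refine ⟨max L1 L2, le_max_of_le_left h1, ?_, ?_⟩
  · intro j hj x y
    exact (h1' j hj x y).trans (mul_le_mul_of_nonneg_right (le_max_left _ _) (norm_nonneg _))
  · intro j hj x y
    have h3 := h2' j hj (C.f^[j] x) (C.f^[j] y)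
    rw [inv_iter C j x j le_rfl, inv_iter C j y j le_rfl, Nat.sub_self] at h3
    exact h3.trans (mul_le_mul_of_nonneg_right (le_max_right _ _) (norm_nonneg _))

/-- step (a) -/
theorem step_a {F : Type*} [NormedAddCommGroup F] (V A0 A1 A2 : F) (η : ℝ)
    (hη : η ≤ 1 / 9) (hV : V = A0 + A1 + A2) (h : ‖A1 + A2‖ ≤ ‖A0‖ + 3 * η * ‖V‖) :
    ‖V‖ ≤ 3 * ‖A0‖ := by
  have h1 : ‖V‖ ≤ ‖A0‖ + ‖A1 + A2‖ := by
    rw [hV, add_assoc]
    exact norm_add_le _ _
  have h2 := norm_nonneg V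
  nlinarith

/-- step (b): the `P 2` part dominates -/
theorem step_b (R L η κ1 cb ρ m0 b nVx nvx : ℝ) (hR : 1 ≤ R) (hL : 1 ≤ L)
    (hη : η = 1 / (60 * R * (2 + 3 * R))) (hκ : κ1 = 2 * (2 + 3 * R))
    (hm0 : 0 ≤ m0) (hmb : m0 ≤ b) (hVx : nVx ≤ m0 + 3 * R * m0 + b)
    (n2 n01 : ℝ) (h2 : b - η * nVx ≤ n2) (h01 : n01 ≤ m0 + 3 * R * m0 + 2 * (η * nVx))
    (h2R : n2 ≤ R * nvx) (hnV : 0 ≤ nVx) (hnv : 0 ≤ nvx) (hρ : 0 < ρ)
    (hPG : n01 ≤ κ1 * n2 → cb * nvx ≤ L * (2 * ρ + nvx)) (hcb : 2 * L ≤ cb) :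
    m0 ≤ 4 * R * ρ := by
  have hb : 0 ≤ b := hm0.trans hmb
  have e1 : η * (2 + 3 * R) = 1 / (60 * R) := by
    rw [hη]
    field_simp
  have e2 : 1 / (60 * R) ≤ 1 / 60 := by
    apply div_le_div_of_nonneg_left (by norm_num) (by norm_num) (by linarith)
  have hη0 : 0 < η := by rw [hη]; positivity
  have k1 : nVx ≤ (2 + 3 * R) * b := by nlinarith
  have k2 : η * nVx ≤ b / 60 := by
    calc η * nVx ≤ η * ((2 + 3 * R) * b) := mul_le_mul_of_nonneg_left k1 hη0.le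
      _ = 1 / (60 * R) * b := by rw [← mul_assoc, e1]
      _ ≤ 1 / 60 * b := mul_le_mul_of_nonneg_right e2 hb
      _ = b / 60 := by ring
  have k3 : b / 2 ≤ n2 := by linarith
  have k4 : n01 ≤ κ1 * n2 := by
    have : n01 ≤ (2 + 3 * R) * b := by nlinarith
    rw [hκ]
    nlinarith
  have k5 := hPG k4
  have k6 : 2 * L * nvx ≤ cb * nvx := mul_le_mul_of_nonneg_right hcb hnv
  have k7 : L * nvx ≤ L * (2 * ρ) := by nlinarith
  have k8 : nvx ≤ 2 * ρ := le_of_mul_le_mul_left k7 (by linarith)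
  nlinarith

/-- step (c), first part: the `P 0` part dominates at the returned pair -/
theorem step_c1 (R η ρ m0 nVx nV1 d p nw n12 κ2 : ℝ) (hR : 1 ≤ R)
    (hη : η = 1 / (60 * R * (2 + 3 * R))) (hκ : κ2 = 20 * R * (2 + 3 * R))
    (hm0 : 100 * R * ρ < m0) (hρ : 0 < ρ) (hVx : nVx ≤ (2 + 3 * R) * m0)
    (hd : d ≤ η * nV1 + 2 * ρ + η * nVx) (hV1 : nV1 ≤ nVx + d) (hd0 : 0 ≤ d)
    (hnVx : 0 ≤ nVx) (hp : m0 - R * d - η * nV1 ≤ p) (hw : nw ≤ nV1 + η * nV1)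
    (h12 : n12 ≤ 2 * R * nw) : n12 ≤ κ2 * p := by
  have hR0 : 0 < R := by linarith
  have hm : 0 < m0 := lt_trans (by positivity) hm0
  have e1 : η * (2 + 3 * R) = 1 / (60 * R) := by
    rw [hη]
    field_simp
  have e2 : η ≤ 1 / 300 := by
    rw [hη]
    apply div_le_div_of_nonneg_left (by norm_num) (by norm_num) (by nlinarith)
  have hη0 : 0 < η := by rw [hη]; positivity
  -- `R d`
  have k1 : R * (η * nVx) ≤ m0 / 60 := by
    calc R * (η * nVx) ≤ R * (η * ((2 + 3 * R) * m0)) :=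
          mul_le_mul_of_nonneg_left (mul_le_mul_of_nonneg_left hVx hη0.le) hR0.le
      _ = R * (1 / (60 * R)) * m0 := by rw [← mul_assoc η, e1, mul_assoc]
      _ = m0 / 60 := by field_simp
  have k2 : R * ρ ≤ m0 / 100 := by linarith
  have k3 : η * nV1 ≤ η * nVx + d / 300 := by
    calc η * nV1 ≤ η * (nVx + d) := mul_le_mul_of_nonneg_left hV1 hη0.le
      _ = η * nVx + η * d := by ring
      _ ≤ η * nVx + 1 / 300 * d := by
          have := mul_le_mul_of_nonneg_right e2 hd0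
          linarith
      _ = η * nVx + d / 300 := by ring
  have k4 : R * d ≤ 2 * (R * (η * nVx)) + 2 * (R * ρ) + R * d / 300 := by
    have h1 : d ≤ 2 * (η * nVx) + 2 * ρ + d / 300 := by linarith
    have h2 := mul_le_mul_of_nonneg_left h1 hR0.le
    have h3 : R * (2 * (η * nVx) + 2 * ρ + d / 300) =
        2 * (R * (η * nVx)) + 2 * (R * ρ) + R * d / 300 := by ring
    linarith
  have k5 : R * d ≤ m0 / 10 := by linarith
  have k6 : d ≤ R * d := le_mul_of_one_le_left hd0 hR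
  have k7 : η * nVx ≤ R * (η * nVx) := le_mul_of_one_le_left (mul_nonneg hη0.le hnVx) hR
  have k8 : m0 / 2 ≤ p := by linarith
  have hnV1' : nV1 ≤ (2 + 3 * R) * m0 + m0 / 10 := by linarith
  have k9 : nw ≤ 2 * ((2 + 3 * R) * m0) := by nlinarith
  have k10 : n12 ≤ 2 * R * (2 * ((2 + 3 * R) * m0)) :=
    h12.trans (mul_le_mul_of_nonneg_left k9 (by linarith))
  have k11 : κ2 * (m0 / 2) ≤ κ2 * p := mul_le_mul_of_nonneg_left k8 (by rw [hκ]; positivity)
  have k12 : 2 * R * (2 * ((2 + 3 * R) * m0)) ≤ κ2 * (m0 / 2) := by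
    rw [hκ]
    have : 0 ≤ R * (2 + 3 * R) * m0 := by positivity
    nlinarith
  linarith

/-- step (c), second part -/
theorem step_c2 (R L η cc ρ m0 nVx nvx nw nD : ℝ) (hR : 1 ≤ R) (hη : η ≤ 1 / 5) (hρ : 0 < ρ)
    (hcc : 2 * L ≤ cc) (h1 : cc * nD ≤ nvx) (h2 : nw ≤ L * nD) (h3 : nvx ≤ nw + 2 * ρ)
    (h4 : m0 ≤ R * nVx) (h5 : nVx ≤ nvx + η * nVx) (hD : 0 ≤ nD) (hnVx : 0 ≤ nVx) :
    m0 ≤ 100 * R * ρ := by
  have k1 : 2 * L * nD ≤ cc * nD := mul_le_mul_of_nonneg_right hcc hD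
  have k2 : nvx ≤ 4 * ρ := by linarith
  have k3 : nVx ≤ 5 * ρ := by nlinarith
  have k4 : R * nVx ≤ R * (5 * ρ) := mul_le_mul_of_nonneg_left k3 (by linarith)
  nlinarith [mul_pos (lt_of_lt_of_le one_pos hR) hρ]

theorem pr (hPG : StmtPG) (hCC : StmtCC) (hTC : StmtTC) (hT1 : StmtT1) : StmtPR := by
  intro N K M P c z0 hz0 hM hPc hPP hPs C D k0 hLC hSC hD hDi
  obtain ⟨hx0M, hx0W⟩ := c.mapsψ z0 hz0
  obtain ⟨R, hR1, hR⟩ := bddP hM P hPc
  have hR0 : 0 < R := by linarith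
  obtain ⟨L, hL1, hLa, hLb⟩ := lipC hM hLC k0
  obtain ⟨hcc1, hcc2⟩ := hCC N K M P c z0 hz0 hPc hPP hPs
  obtain ⟨-, hT, -⟩ := hT1 N K M c z0 hz0
  set x0 : E K := c.ψ z0 with hx0
  set J : E N →L[ℝ] E K := fderiv ℝ c.ψ z0 with hJ
  set η : ℝ := 1 / (60 * R * (2 + 3 * R)) with hη
  have hη0 : 0 < η := by rw [hη]; positivity
  have hη1 : η ≤ 1 / 300 := by
    rw [hη]
    apply div_le_div_of_nonneg_left (by norm_num) (by norm_num) (by nlinarith)
  obtain ⟨We, hWo, hxW, hWW, hW⟩ := hcc2 η hη0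
  obtain ⟨s0, hs0, hs⟩ := Metric.isOpen_iff.1 hWo x0 hxW
  set s : ℝ := s0 / 2 with hsdef
  have hs2 : 2 * s = s0 := by rw [hsdef]; ring
  have hspos : 0 < s := by rw [hsdef]; positivity
  set κ1 : ℝ := 2 * (2 + 3 * R) with hκ1
  set κ2 : ℝ := 20 * R * (2 + 3 * R) with hκ2
  have hκ1' : 1 ≤ κ1 := by rw [hκ1]; linarith
  have hκ2' : 1 ≤ κ2 := by rw [hκ2]; nlinarith
  obtain ⟨δa, ca, hδa, hca, ha⟩ := hPG K M hM D.inv _ _ hDi 1 le_rfl
  obtain ⟨δb, cb, hδb, hcb, hb⟩ := hPG K M hM D _ _ hD κ1 hκ1'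
  obtain ⟨κ3, δt, hκ3, hδt, ht⟩ := hTC K M hM C (fun i (x : M) => P i x) hLC hSC k0 κ2 hκ2'
  obtain ⟨δc, cc, hδc, hcc, hc⟩ := hPG K M hM D.inv _ _ hDi κ3 hκ3
  obtain ⟨q0, hq0⟩ := pow_unbounded_of_one_lt (2 * L / min cb cc) (show (1 : ℝ) < 4 by norm_num)
  have hmin : 0 < min cb cc := lt_min hcb hcc
  have hqq : ∀ q : ℕ, q0 ≤ q → 2 * L ≤ cb * 4 ^ q ∧ 2 * L ≤ cc * 4 ^ q := by
    intro q hq
    rw [div_lt_iff₀ hmin] at hq0
    have h1 : (4 : ℝ) ^ q0 ≤ 4 ^ q := pow_le_pow_right₀ (by norm_num) hq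
    have h2 : (4 : ℝ) ^ q0 * min cb cc ≤ 4 ^ q * min cb cc :=
      mul_le_mul_of_nonneg_right h1 hmin.le
    have h3 : (4 : ℝ) ^ q * min cb cc ≤ 4 ^ q * cb :=
      mul_le_mul_of_nonneg_left (min_le_left _ _) (by positivity)
    have h4 : (4 : ℝ) ^ q * min cb cc ≤ 4 ^ q * cc :=
      mul_le_mul_of_nonneg_left (min_le_right _ _) (by positivity)
    constructor
    · rw [mul_comm cb]; linarith
    · rw [mul_comm cc]; linarith
  set δ : ℝ := min (min δa δb) (min δt δc) / 3 with hδ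
  have hδ0 : 0 < δ := by
    rw [hδ]
    have := lt_min (lt_min hδa hδb) (lt_min hδt hδc)
    positivity
  have hδ3 : 3 * δ = min (min δa δb) (min δt δc) := by rw [hδ]; ring
  have hda : 3 * δ ≤ δa := hδ3.trans_le ((min_le_left _ _).trans (min_le_left _ _))
  have hdb : 3 * δ ≤ δb := hδ3.trans_le ((min_le_left _ _).trans (min_le_right _ _))
  have hdt : 3 * δ ≤ δt := hδ3.trans_le ((min_le_right _ _).trans (min_le_left _ _))
  have hdc : 3 * δ ≤ δc := hδ3.trans_le ((min_le_right _ _).trans (min_le_right _ _))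
  refine ⟨Metric.ball x0 s, δ, s, 600 * R, q0, Metric.isOpen_ball, Metric.mem_ball_self hspos,
    (Metric.ball_subset_ball (by linarith)).trans (hs.trans hWW), hδ0, hspos, by positivity, ?_⟩
  intro q j ρ x x' y y' hq hj hρ hρs hxW' hx'W hyW hy'W hret hret' hux huy hB hcone
  obtain ⟨hqb, hqc⟩ := hqq q hq
  -- comparison with the chart
  have hcmp : ∀ p r : M, dist (p : E K) x0 < 2 * s → dist (r : E K) x0 < 2 * s →
      ‖((r : E K) - p) - J (c.φ r - c.φ p)‖ ≤ η * ‖J (c.φ r - c.φ p)‖ ∧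
      ∀ i, ‖P i p ((r : E K) - p) - P i x0 (J (c.φ r - c.φ p))‖ ≤
        η * ‖J (c.φ r - c.φ p)‖ := by
    intro p r hp hr
    rw [hs2] at hp hr
    exact hW p ⟨p.2, hs hp⟩ r ⟨r.2, hs hr⟩
  have hdec : ∀ v, J v = P 0 x0 (J v) + P 1 x0 (J v) + P 2 x0 (J v) := by
    intro v
    have h1 := hPs x0 hx0M
    have h2 : Pi M x0 (J v) = J v := DFunLike.congr_fun hT v
    have h3 : (P 0 x0 + P 1 x0 + P 2 x0) (J v) = J v := by rw [h1]; exact h2
    exact h3.symm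
  -- the differences along `P 2` are killed by `P 0`, `P 1`
  have hkill : ∀ (v : E N) (i : Fin 3), i ≠ 2 → phat c P 2 z0 v = v → P i x0 (J v) = 0 := by
    intro v i hi hv
    have h1 : J v = P 2 x0 (J v) := by rw [hcc1 2 v, hv]
    rw [h1]
    have h2 := hPP x0 hx0M i 2
    rw [if_neg hi] at h2
    exact DFunLike.congr_fun h2 (J v)
  have hVV : ∀ i : Fin 3, i ≠ 2 → P i x0 (J (c.φ y' - c.φ y)) = P i x0 (J (c.φ x' - c.φ x)) := by
    intro i hi
    have h1 : c.φ y' - c.φ y = (c.φ x' - c.φ x) + (c.φ y' - c.φ x') - (c.φ y - c.φ x) := by abel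
    rw [h1, map_sub J, map_add J, map_sub (P i x0), map_add (P i x0), hkill _ i hi huy,
      hkill _ i hi hux, add_zero, sub_zero]
  have hxd : dist (x : E K) x0 < s := hxW'
  have hxd' : dist (x' : E K) x0 < s := hx'W
  have hyd : dist (y : E K) x0 < s := hyW
  have hyd' : dist (y' : E K) x0 < s := hy'W
  obtain ⟨cy1, cy2⟩ := hcmp y y' (by linarith) (by linarith)
  obtain ⟨cx1, cx2⟩ := hcmp x x' (by linarith) (by linarith)
  set Vy : E K := J (c.φ y' - c.φ y) with hVy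
  set Vx : E K := J (c.φ x' - c.φ x) with hVx
  have hPb : ∀ (i : Fin 3) (p : E K), p ∈ M → ∀ v : E K, ‖P i p v‖ ≤ R * ‖v‖ := fun i p hp v =>
    ((P i p).le_opNorm v).trans (mul_le_mul_of_nonneg_right (hR i p hp) (norm_nonneg _))
  -- step (a)
  have hconeY : ‖(P 2 (y : E K) + P 1 (y : E K)) ((y' : E K) - y)‖ ≤
      ‖P 0 (y : E K) ((y' : E K) - y)‖ := by
    have h1 := (ha q (D.f^[q] y) (D.f^[q] y') (fun i hi => by
      rw [inv_iter D q y i hi, inv_iter D q y' i hi]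
      have := (hB (q - i) (Nat.sub_le _ _)).2.2
      linarith) (by rw [one_mul]; exact hcone)).2
    rw [inv_iter D q y q le_rfl, inv_iter D q y' q le_rfl, Nat.sub_self, one_mul] at h1
    exact h1
  have hA12 : ‖P 1 x0 Vy + P 2 x0 Vy‖ ≤ ‖P 0 x0 Vy‖ + 3 * η * ‖Vy‖ := by
    have h1 : P 1 x0 Vy + P 2 x0 Vy = (P 2 (y : E K) + P 1 (y : E K)) ((y' : E K) - y) -
        (P 1 (y : E K) ((y' : E K) - y) - P 1 x0 Vy) -
        (P 2 (y : E K) ((y' : E K) - y) - P 2 x0 Vy) := by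
      rw [ContinuousLinearMap.add_apply]
      abel
    have h2 : P 0 (y : E K) ((y' : E K) - y) = P 0 x0 Vy +
        (P 0 (y : E K) ((y' : E K) - y) - P 0 x0 Vy) := by abel
    have h3 : ‖P 0 (y : E K) ((y' : E K) - y)‖ ≤ ‖P 0 x0 Vy‖ + η * ‖Vy‖ := by
      rw [h2]
      exact (norm_add_le _ _).trans (add_le_add_right (cy2 0) _)
    have h4 := norm_sub_le ((P 2 (y : E K) + P 1 (y : E K)) ((y' : E K) - y) -
        (P 1 (y : E K) ((y' : E K) - y) - P 1 x0 Vy)) (P 2 (y : E K) ((y' : E K) - y) - P 2 x0 Vy)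
    have h5 := norm_sub_le ((P 2 (y : E K) + P 1 (y : E K)) ((y' : E K) - y))
        (P 1 (y : E K) ((y' : E K) - y) - P 1 x0 Vy)
    rw [← h1] at h4
    have h6 := cy2 1
    have h7 := cy2 2
    linarith
  have hVy3 : ‖Vy‖ ≤ 3 * ‖P 0 x0 Vy‖ :=
    step_a Vy _ _ _ η (by linarith) (hdec _) hA12
  set m0 : ℝ := ‖P 0 x0 Vy‖ with hm0
  have hm00 : 0 ≤ m0 := norm_nonneg _
  have hA0 : ‖P 0 x0 Vx‖ = m0 := by rw [hm0, hVV 0 (by decide)]
  have hA1 : ‖P 1 x0 Vx‖ ≤ 3 * R * m0 := by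
    rw [← hVV 1 (by decide)]
    have := hPb 1 x0 hx0M Vy
    nlinarith
  have hVxB : ‖Vx‖ ≤ m0 + 3 * R * m0 + ‖P 2 x0 Vx‖ := by
    have h0 : Vx = P 0 x0 Vx + P 1 x0 Vx + P 2 x0 Vx := hdec _
    have h1 : ‖P 0 x0 Vx + P 1 x0 Vx + P 2 x0 Vx‖ ≤
        ‖P 0 x0 Vx‖ + ‖P 1 x0 Vx‖ + ‖P 2 x0 Vx‖ := norm_add₃_le
    rw [← h0] at h1
    linarith
  have hBowen : ∀ i ≤ q, ‖(D.f^[i] x' : E K) - D.f^[i] x‖ ≤ 3 * δ := by
    intro i hi
    obtain ⟨h1, h2, h3⟩ := hB i hi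
    have h4 : (D.f^[i] x' : E K) - D.f^[i] x = -((D.f^[i] y' : E K) - D.f^[i] x') +
        ((D.f^[i] y' : E K) - D.f^[i] y) + ((D.f^[i] y : E K) - D.f^[i] x) := by abel
    rw [h4]
    refine norm_add₃_le.trans ?_
    rw [norm_neg]
    linarith
  set x1 : M := C.f^[j] (D.f^[q] x) with hx1
  set x1' : M := C.f^[j] (D.f^[q] x') with hx1'
  have hw : ‖(x' : E K) - x‖ ≤ ‖(x1' : E K) - x1‖ + 2 * ρ := by
    have h1 : (x' : E K) - x = ((x1' : E K) - x1) - ((x1' : E K) - x') + ((x1 : E K) - x) := by abel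
    rw [h1]
    have h2 := norm_add_le (((x1' : E K) - x1) - ((x1' : E K) - x')) ((x1 : E K) - x)
    have h3 := norm_sub_le ((x1' : E K) - x1) ((x1' : E K) - x')
    linarith
  have hw' : ‖(x1' : E K) - x1‖ ≤ 2 * ρ + ‖(x' : E K) - x‖ := by
    have h1 : (x1' : E K) - x1 = ((x' : E K) - x) + ((x1' : E K) - x') - ((x1 : E K) - x) := by abel
    rw [h1]
    have h2 := norm_sub_le (((x' : E K) - x) + ((x1' : E K) - x')) ((x1 : E K) - x)
    have h3 := norm_add_le ((x' : E K) - x) ((x1' : E K) - x')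
    linarith
  have hvxV : ‖Vx‖ ≤ ‖(x' : E K) - x‖ + η * ‖Vx‖ := by
    have h1 : Vx = ((x' : E K) - x) - (((x' : E K) - x) - Vx) := by abel
    have h2 := norm_sub_le ((x' : E K) - x) (((x' : E K) - x) - Vx)
    rw [← h1] at h2
    linarith
  have hmain : m0 ≤ 100 * R * ρ := by
    rcases le_or_gt m0 ‖P 2 x0 Vx‖ with hcase | hcase
    · -- case (b)
      have h1 : m0 ≤ 4 * R * ρ := by
        refine step_b R L η κ1 (cb * 4 ^ q) ρ m0 ‖P 2 x0 Vx‖ ‖Vx‖ ‖(x' : E K) - x‖ hR1 hL1 hη hκ1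
          hm00 hcase hVxB ‖P 2 (x : E K) ((x' : E K) - x)‖
          ‖(P 0 (x : E K) + P 1 (x : E K)) ((x' : E K) - x)‖ ?_ ?_ (hPb 2 x x.2 _)
          (norm_nonneg _) (norm_nonneg _) hρ ?_ hqb
        · have h2 := norm_sub_norm_le (P 2 x0 Vx)
            (P 2 x0 Vx - P 2 (x : E K) ((x' : E K) - x))
          rw [sub_sub_cancel] at h2
          have h3 := cx2 2
          rw [norm_sub_rev] at h3
          linarith
        · have h2 : (P 0 (x : E K) + P 1 (x : E K)) ((x' : E K) - x) =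
              P 0 x0 Vx + P 1 x0 Vx + ((P 0 (x : E K) ((x' : E K) - x) - P 0 x0 Vx) +
              (P 1 (x : E K) ((x' : E K) - x) - P 1 x0 Vx)) := by
            rw [ContinuousLinearMap.add_apply]
            abel
          rw [h2]
          have h3 := norm_add_le (P 0 x0 Vx + P 1 x0 Vx)
            ((P 0 (x : E K) ((x' : E K) - x) - P 0 x0 Vx) +
              (P 1 (x : E K) ((x' : E K) - x) - P 1 x0 Vx))
          have h4 := norm_add_le (P 0 x0 Vx) (P 1 x0 Vx)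
          have h5 := norm_add_le (P 0 (x : E K) ((x' : E K) - x) - P 0 x0 Vx)
              (P 1 (x : E K) ((x' : E K) - x) - P 1 x0 Vx)
          have h6 := cx2 0
          have h7 := cx2 1
          linarith
        · intro hk
          have h2 := (hb q x x' (fun i hi => (hBowen i hi).trans hdb) hk).1
          have h3 := hLa j hj (D.f^[q] x') (D.f^[q] x)
          rw [← hx1, ← hx1'] at h3
          have h4 : L * ‖(x1' : E K) - x1‖ ≤ L * (2 * ρ + ‖(x' : E K) - x‖) :=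
            mul_le_mul_of_nonneg_left hw' (by linarith)
          linarith
      nlinarith [mul_pos hR0 hρ]
    · -- case (c)
      by_contra hcon
      rw [not_le] at hcon
      have hVx2 : ‖Vx‖ ≤ (2 + 3 * R) * m0 := by nlinarith
      have hd1 : dist (x1 : E K) x0 < 2 * s := by
        have h1 := dist_triangle (x1 : E K) x x0
        rw [dist_eq_norm (x1 : E K) x] at h1
        linarith
      have hd1' : dist (x1' : E K) x0 < 2 * s := by
        have h1 := dist_triangle (x1' : E K) x' x0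
        rw [dist_eq_norm (x1' : E K) x'] at h1
        linarith
      obtain ⟨c1, c2⟩ := hcmp x1 x1' hd1 hd1'
      set V1 : E K := J (c.φ x1' - c.φ x1) with hV1
      have hd : ‖V1 - Vx‖ ≤ η * ‖V1‖ + 2 * ρ + η * ‖Vx‖ := by
        have h1 : V1 - Vx = -(((x1' : E K) - x1) - V1) +
            (((x1' : E K) - x') - ((x1 : E K) - x)) + (((x' : E K) - x) - Vx) := by abel
        rw [h1]
        refine norm_add₃_le.trans ?_
        rw [norm_neg]
        have h2 := norm_sub_le ((x1' : E K) - x') ((x1 : E K) - x)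
        linarith
      have hV1' : ‖V1‖ ≤ ‖Vx‖ + ‖V1 - Vx‖ := by
        have h1 : V1 = Vx + (V1 - Vx) := by abel
        conv_lhs => rw [h1]
        exact norm_add_le _ _
      have hp : m0 - R * ‖V1 - Vx‖ - η * ‖V1‖ ≤ ‖P 0 (x1 : E K) ((x1' : E K) - x1)‖ := by
        have h1 : P 0 x0 Vx = P 0 (x1 : E K) ((x1' : E K) - x1) -
            (P 0 (x1 : E K) ((x1' : E K) - x1) - P 0 x0 V1) - P 0 x0 (V1 - Vx) := by
          rw [map_sub (P 0 x0)]
          abel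
        have h2 := norm_sub_le (P 0 (x1 : E K) ((x1' : E K) - x1) -
            (P 0 (x1 : E K) ((x1' : E K) - x1) - P 0 x0 V1)) (P 0 x0 (V1 - Vx))
        have h3 := norm_sub_le (P 0 (x1 : E K) ((x1' : E K) - x1))
            (P 0 (x1 : E K) ((x1' : E K) - x1) - P 0 x0 V1)
        rw [← h1, hA0] at h2
        have h4 := hPb 0 x0 hx0M (V1 - Vx)
        have h5 := c2 0
        linarith
      have hnw : ‖(x1' : E K) - x1‖ ≤ ‖V1‖ + η * ‖V1‖ := by
        have h1 : (x1' : E K) - x1 = V1 + (((x1' : E K) - x1) - V1) := by abel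
        conv_lhs => rw [h1]
        exact (norm_add_le _ _).trans (add_le_add_right c1 _)
      have h12 : ‖(P 2 (x1 : E K) + P 1 (x1 : E K)) ((x1' : E K) - x1)‖ ≤
          2 * R * ‖(x1' : E K) - x1‖ := by
        rw [ContinuousLinearMap.add_apply]
        have h1 := hPb 2 x1 x1.2 ((x1' : E K) - x1)
        have h2 := hPb 1 x1 x1.2 ((x1' : E K) - x1)
        have h3 := norm_add_le (P 2 (x1 : E K) ((x1' : E K) - x1))
          (P 1 (x1 : E K) ((x1' : E K) - x1))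
        linarith
      have hcone1 := step_c1 R η ρ m0 ‖Vx‖ ‖V1‖ ‖V1 - Vx‖ _ _ _ κ2 hR1 hη hκ2 hcon hρ hVx2 hd
        hV1' (norm_nonneg _) (norm_nonneg _) hp hnw h12
      have hTCx := ht j hj (D.f^[q] x) (D.f^[q] x') ((hBowen q le_rfl).trans hdt) hcone1
      have hPGx := (hc q (D.f^[q] x) (D.f^[q] x') (fun i hi => by
        rw [inv_iter D q x i hi, inv_iter D q x' i hi]
        exact (hBowen (q - i) (Nat.sub_le _ _)).trans hdc) hTCx).1
      rw [inv_iter D q x q le_rfl, inv_iter D q x' q le_rfl, Nat.sub_self] at hPGx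
      have hLbx := hLb j hj (D.f^[q] x') (D.f^[q] x)
      have hA0' := hPb 0 x0 hx0M Vx
      rw [hA0] at hA0'
      have := step_c2 R L η (cc * 4 ^ q) ρ m0 ‖Vx‖ ‖(x' : E K) - x‖ ‖(x1' : E K) - x1‖
        ‖(D.f^[q] x' : E K) - D.f^[q] x‖ hR1 (by linarith) hρ hqc hPGx hLbx hw hA0' hvxV
        (norm_nonneg _) (norm_nonneg _)
      linarith
  have hfin : ‖(y' : E K) - y‖ ≤ ‖Vy‖ + η * ‖Vy‖ := by
    have h1 : (y' : E K) - y = Vy + (((y' : E K) - y) - Vy) := by abel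
    conv_lhs => rw [h1]
    exact (norm_add_le _ _).trans (add_le_add_right cy1 _)
  have h1 : η * ‖Vy‖ ≤ 1 / 300 * ‖Vy‖ := mul_le_mul_of_nonneg_right hη1 (norm_nonneg _)
  have h2 := norm_nonneg Vy
  linarith

end Pool.Agent.Helper77.RZ
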